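import Mathlib
import Pool.Agent.Y209.HT.Main
import Pool.Agent.Y115.HTCOP
import Pool.Agent.Y37.HTGRO

set_option autoImplicit false

/-!
# Height growth `4 ^ n * n ^ (N + 1)` along Zariski dense orbits, in every dimension `N ≥ 3`
-/

namespace Pool.Agent.Results.MP_a67235_nt.EveryDimension

open Pool.Agent.Helper259.AbsHt Pool.Agent.Helper259.RatDef

/-- `F` and `G` have the same order of growth. -/
def SameGrowth (F G : ℕ → ℝ) : Prop :=
  ∃ c₁ c₂ : ℝ, 0 < c₁ ∧ 0 < c₂ ∧ ∃ c₃ : ℕ, ∀ n ≥ c₃, c₁ * F n ≤ G n ∧ G n ≤ c₂ * F n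

/-- **In every dimension `N ≥ 3` both questions have a negative answer**: there are a dominant
rational self-map `f` of projective `N`-space and a point with rational coordinates whose orbit
`P 0, P 1, …` is defined, all of whose tails are Zariski dense, and whose heights are of the order
`4 ^ n * n ^ (N + 1)`. This is the only order of growth `δ ^ n * n ^ l * (log n) ^ k`, with real
`δ`, `l`, `k`, which the heights have. -/
theorem result (N : ℕ) (hN : 3 ≤ N) :
    ∃ (d : ℕ) (f : RatMap N d) (P : ℕ → PSpace N),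
    f.IsDominant ∧
    (∀ n, ∃ (x : Fin (N + 1) → ℚ) (hx : (fun i => (x i : Qbar)) ≠ 0),
      P n = Projectivization.mk Qbar (fun i => (x i : Qbar)) hx) ∧
    (∀ n, ∃ h : f.DefinedAt (P n), P (n + 1) = f.value (P n) h) ∧
    (∀ m, IsZariskiDense {Q | ∃ n ≥ m, P n = Q}) ∧
    SameGrowth (fun n => (4 : ℝ) ^ n * (n : ℝ) ^ (N + 1)) (fun n => ht (P n)) ∧
    ∀ δ l k : ℝ, SameGrowth (fun n => δ ^ n * (n : ℝ) ^ l * Real.log n ^ k)
      (fun n => ht (P n)) ↔ δ = 4 ∧ l = N + 1 ∧ k = 0 :=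
  Pool.Agent.Y209.HT.main
    (fun _ _ hm hk h3 => Pool.Agent.Y115.HTCOP.t_COP hm hk h3)
    (fun e L M h1 h2 h3 c C hc hC n₀ h => Pool.Agent.Y37.HTGRO.t_GRO e L M h1 h2 h3 c C hc hC n₀ h)
    N hN

end Pool.Agent.Results.MP_a67235_nt.EveryDimension
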